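import Pool.Agent.Erg4d.Mult

set_option autoImplicit false

open Finset Matrix

namespace Pool.Agent.Erg4d

variable {k m : ℕ}

/-- A common power of integer unimodular matrices is congruent to one modulo three. -/
lemma exists_power (B : Fin m → (Matrix (Fin k) (Fin k) ℤ)ˣ) :
    ∃ q : ℕ, 0 < q ∧ ∀ j, ∃ M : Matrix (Fin k) (Fin k) ℤ,
      ((B j : (Matrix (Fin k) (Fin k) ℤ)ˣ) : Matrix (Fin k) (Fin k) ℤ) ^ q = 1 + (3 : ℤ) • M := by
  have hf : Finite (Matrix (Fin k) (Fin k) (ZMod 3))ˣ := inferInstance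
  have : Fintype (Matrix (Fin k) (Fin k) (ZMod 3))ˣ := Fintype.ofFinite _
  refine ⟨Fintype.card (Matrix (Fin k) (Fin k) (ZMod 3))ˣ, Fintype.card_pos, fun j => ?_⟩
  set q := Fintype.card (Matrix (Fin k) (Fin k) (ZMod 3))ˣ with hq
  let φ : Matrix (Fin k) (Fin k) ℤ →+* Matrix (Fin k) (Fin k) (ZMod 3) :=
    (Int.castRingHom (ZMod 3)).mapMatrix
  have h1 : φ ((B j : Matrix (Fin k) (Fin k) ℤ) ^ q) = 1 := by
    have h2 : (Units.map (φ : Matrix (Fin k) (Fin k) ℤ →* Matrix (Fin k) (Fin k) (ZMod 3)) (B j)) ^ q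
        = 1 := pow_card_eq_one
    have h3 := congrArg (fun u : (Matrix (Fin k) (Fin k) (ZMod 3))ˣ =>
      (u : Matrix (Fin k) (Fin k) (ZMod 3))) h2
    simp only [Units.val_pow_eq_pow_val, Units.coe_map, Units.val_one] at h3
    rw [map_pow]
    exact h3
  have h4 : ∀ a b, (3 : ℤ) ∣ ((B j : Matrix (Fin k) (Fin k) ℤ) ^ q - 1) a b := by
    intro a b
    have h5 : φ ((B j : Matrix (Fin k) (Fin k) ℤ) ^ q - 1) = 0 := by
      rw [map_sub, h1, map_one, sub_self]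
    have h6 := congrFun (congrFun h5 a) b
    have h7 : ((((B j : Matrix (Fin k) (Fin k) ℤ) ^ q - 1) a b : ℤ) : ZMod 3) = 0 := h6
    exact (ZMod.intCast_zmod_eq_zero_iff_dvd _ 3).mp h7
  refine ⟨fun a b => ((B j : Matrix (Fin k) (Fin k) ℤ) ^ q - 1) a b / 3, ?_⟩
  ext a b
  have h8 := h4 a b
  rw [Matrix.add_apply, Matrix.smul_apply, smul_eq_mul, Int.mul_ediv_cancel' h8,
    Matrix.sub_apply]
  ring

/-- binomial expansion -/
lemma pow_expand (M : Matrix (Fin k) (Fin k) ℤ) (t : ℕ) (η : Fin k → ℤ) (a : Fin k) :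
    (((1 + (3 : ℤ) • M) ^ t) *ᵥ η) a =
      ∑ i ∈ range (t + 1), (t.choose i : ℤ) * (3 ^ i * ((M ^ i) *ᵥ η) a) := by
  rw [add_comm, (Commute.one_right ((3 : ℤ) • M)).add_pow, Matrix.sum_mulVec, Finset.sum_apply]
  apply Finset.sum_congr rfl
  intro i _
  rw [one_pow, mul_one, smul_pow, Matrix.smul_mul, Matrix.smul_mulVec, Pi.smul_apply, smul_eq_mul]
  have : (M ^ i * ((t.choose i : ℕ) : Matrix (Fin k) (Fin k) ℤ)) = (t.choose i : ℤ) • (M ^ i) := by
    rw [(Nat.cast_commute (t.choose i) (M ^ i)).symm.eq, ← nsmul_eq_mul]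
    simp
  rw [this, Matrix.smul_mulVec, Pi.smul_apply, smul_eq_mul]
  ring

/-- the sequence of frequencies -/
def vv (B : Fin m → (Matrix (Fin k) (Fin k) ℤ)ˣ) (ξ : Fin m → Fin k → ℤ) (n : ℕ) : Fin k → ℤ :=
  ∑ j, ((B j : Matrix (Fin k) (Fin k) ℤ) ^ n) *ᵥ ξ j

/-- Along residue classes the frequencies are constant or have bounded multiplicities. -/
theorem structure_vv (B : Fin m → (Matrix (Fin k) (Fin k) ℤ)ˣ) (ξ : Fin m → Fin k → ℤ) :
    ∃ q : ℕ, 0 < q ∧ ∀ r : ℕ, (∀ t, vv B ξ (q * t + r) = vv B ξ r) ∨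
      ∃ K : ℕ, ∀ (z : Fin k → ℤ) (S : Finset ℕ), (∀ t ∈ S, vv B ξ (q * t + r) = z) →
        S.card ≤ K := by
  obtain ⟨q, hq, hM⟩ := exists_power B
  choose M hM using hM
  refine ⟨q, hq, fun r => ?_⟩
  set η : Fin m → Fin k → ℤ := fun j => ((B j : Matrix (Fin k) (Fin k) ℤ) ^ r) *ᵥ ξ j with hη
  set c : Fin k → ℕ → ℤ := fun a i => ∑ j, (((M j) ^ i) *ᵥ η j) a with hc
  have hform : ∀ t a, vv B ξ (q * t + r) a = FF (c a) t := by
    intro t a
    unfold vv FF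
    rw [Finset.sum_apply]
    have h1 : ∀ j, (((B j : Matrix (Fin k) (Fin k) ℤ) ^ (q * t + r)) *ᵥ ξ j) a =
        ∑ i ∈ range (t + 1), (t.choose i : ℤ) * (3 ^ i * (((M j) ^ i) *ᵥ η j) a) := by
      intro j
      rw [pow_add, pow_mul, hM j, ← Matrix.mulVec_mulVec, pow_expand]
    simp_rw [h1]
    rw [Finset.sum_comm]
    apply Finset.sum_congr rfl
    intro i _
    rw [hc]
    simp only
    rw [← Finset.mul_sum, ← Finset.mul_sum]
  by_cases hcase : ∃ a, ∃ i, 1 ≤ i ∧ c a i ≠ 0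
  · right
    obtain ⟨a, i, hi, hne⟩ := hcase
    obtain ⟨K, hK⟩ := bounded_mult (c a) i hi hne
    refine ⟨K, fun z S hS => hK (z a) S fun t ht => ?_⟩
    rw [← hform, hS t ht]
  · left
    push Not at hcase
    intro t
    funext a
    have h1 : ∀ s, FF (c a) s = c a 0 := by
      intro s
      unfold FF
      rw [Finset.sum_eq_single_of_mem 0 (by simp)]
      · simp
      · intro i _ hi
        rw [hcase a i (by omega)]
        simp
    have h2 := hform 0 a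
    rw [mul_zero, zero_add] at h2
    rw [hform, h1, h2, h1]

end Pool.Agent.Erg4d
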