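import Mathlib

set_option autoImplicit false

/-!
# Multiplicities of exponential sums over the integers

The sequence `F t = ∑ i ≤ t, choose t i * 3 ^ i * c i` either is constant or takes every value a
bounded number of times (an elementary form of a theorem of Strassmann).
-/

open Polynomial Finset

namespace Pool.Agent.Erg4d

/-- the sequence -/
def FF (c : ℕ → ℤ) (t : ℕ) : ℤ := ∑ i ∈ range (t + 1), (t.choose i : ℤ) * (3 ^ i * c i)

lemma FF_eq (c : ℕ → ℤ) (t T : ℕ) (h : t ≤ T) :
    FF c t = ∑ i ∈ range (T + 1), (t.choose i : ℤ) * (3 ^ i * c i) := by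
  unfold FF
  apply Finset.sum_subset
  · intro i hi
    rw [mem_range] at hi ⊢
    omega
  · intro i _ hi
    rw [mem_range] at hi
    rw [Nat.choose_eq_zero_of_lt (by omega)]
    simp

/-- coefficient `3 ^ i * c i / i!` -/
noncomputable def co (c : ℕ → ℤ) (i : ℕ) : ℚ := ((3 ^ i * c i : ℤ) : ℚ) / (i.factorial : ℚ)

lemma norm_co_le (c : ℕ → ℤ) (i n : ℕ) (h : 2 * n ≤ i) :
    padicNorm 3 (co c i) ≤ (3 : ℚ) ^ (-(n : ℤ)) := by
  have : Fact (Nat.Prime 3) := ⟨Nat.prime_three⟩
  unfold co
  rw [padicNorm.div]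
  have hfac : (i.factorial : ℚ) ≠ 0 := by exact_mod_cast i.factorial_ne_zero
  have h1 : padicNorm 3 ((3 ^ i * c i : ℤ) : ℚ) ≤ (3 : ℚ) ^ (-(i : ℤ)) := by
    push_cast
    rw [padicNorm.mul]
    have e1 : padicNorm 3 ((3 : ℚ) ^ i) = (3 : ℚ) ^ (-(i : ℤ)) := by
      have h3 : padicNorm 3 (3 : ℚ) = (3 : ℚ)⁻¹ := by
        have := padicNorm.padicNorm_p (p := 3) (by norm_num)
        simpa using this
      rw [zpow_neg, zpow_natCast]
      clear * - h3
      induction i with
      | zero => simp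
      | succ i ih =>
        rw [pow_succ, padicNorm.mul, ih, h3]
        field_simp
    rw [e1]
    have e2 : padicNorm 3 ((c i : ℤ) : ℚ) ≤ 1 := padicNorm.of_int _
    calc _ ≤ (3 : ℚ) ^ (-(i : ℤ)) * 1 := mul_le_mul_of_nonneg_left e2 (by positivity)
      _ = _ := mul_one _
  have h2 : padicNorm 3 (i.factorial : ℚ) = (3 : ℚ) ^ (-(padicValNat 3 i.factorial : ℤ)) := by
    have := padicNorm.eq_zpow_of_nonzero (p := 3) hfac
    rw [padicValRat.of_nat] at this
    exact_mod_cast this
  have h3 : 2 * padicValNat 3 i.factorial ≤ i := by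
    have := sub_one_mul_padicValNat_factorial (p := 3) i
    omega
  rw [h2, div_le_iff₀ (by positivity), ← zpow_add₀ (by norm_num)]
  refine h1.trans ?_
  apply zpow_le_zpow_right₀ (by norm_num)
  omega

/-- There is a good index. -/
lemma exists_index (c : ℕ → ℤ) (i0 : ℕ) (hi0 : 1 ≤ i0) (hc : c i0 ≠ 0) :
    ∃ s : ℕ, 1 ≤ s ∧ co c s ≠ 0 ∧ ∀ i, s < i → padicNorm 3 (co c i) < padicNorm 3 (co c s) := by
  have : Fact (Nat.Prime 3) := ⟨Nat.prime_three⟩
  have hne : co c i0 ≠ 0 := by
    unfold co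
    apply div_ne_zero
    · have : (3 ^ i0 * c i0 : ℤ) ≠ 0 := mul_ne_zero (by positivity) hc
      exact_mod_cast this
    · exact_mod_cast i0.factorial_ne_zero
  have hpos : 0 < padicNorm 3 (co c i0) := by
    apply lt_of_le_of_ne (padicNorm.nonneg _)
    exact (padicNorm.nonzero hne).symm
  obtain ⟨n, hn⟩ : ∃ n : ℕ, (3 : ℚ) ^ (-(n : ℤ)) < padicNorm 3 (co c i0) := by
    obtain ⟨n, hn⟩ := exists_pow_lt_of_lt_one hpos (show (1 / 3 : ℚ) < 1 by norm_num)
    refine ⟨n, ?_⟩
    rw [zpow_neg, zpow_natCast, ← inv_pow]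
    simpa using hn
  classical
  set A : Finset ℕ := (range (2 * n)).filter
    (fun i => padicNorm 3 (co c i0) ≤ padicNorm 3 (co c i)) with hA
  have hmem : ∀ i, padicNorm 3 (co c i0) ≤ padicNorm 3 (co c i) → i ∈ A := by
    intro i hi
    rw [hA, mem_filter, mem_range]
    refine ⟨?_, hi⟩
    by_contra hcon
    push Not at hcon
    have := norm_co_le c i n hcon
    linarith
  have hA0 : A.Nonempty := ⟨i0, hmem i0 le_rfl⟩
  refine ⟨A.max' hA0, ?_, ?_, ?_⟩
  · exact hi0.trans (A.le_max' i0 (hmem i0 le_rfl))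
  · intro h0
    have h1 := (mem_filter.mp (A.max'_mem hA0)).2
    rw [h0, padicNorm.zero] at h1
    linarith
  · intro i hi
    by_contra hcon
    push Not at hcon
    have h1 := (mem_filter.mp (A.max'_mem hA0)).2
    have h2 := hmem i (h1.trans hcon)
    have := A.le_max' i h2
    omega

/-- falling factorial polynomial -/
noncomputable def DD (i : ℕ) : ℤ[X] := descPochhammer ℤ i

lemma DD_eval (i t : ℕ) : (DD i).eval (t : ℤ) = (i.factorial : ℤ) * (t.choose i : ℤ) := by
  unfold DD
  rw [descPochhammer_eval_eq_descFactorial, Nat.descFactorial_eq_factorial_mul_choose]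
  push_cast
  rfl

/-- **Bounded multiplicity.** -/
theorem bounded_mult (c : ℕ → ℤ) (i0 : ℕ) (hi0 : 1 ≤ i0) (hc : c i0 ≠ 0) :
    ∃ K : ℕ, ∀ (v : ℤ) (S : Finset ℕ), (∀ t ∈ S, FF c t = v) → S.card ≤ K := by
  have : Fact (Nat.Prime 3) := ⟨Nat.prime_three⟩
  obtain ⟨s, hs1, hs0, hs⟩ := exists_index c i0 hi0 hc
  refine ⟨s, fun v S hS => ?_⟩
  by_contra hcon
  push Not at hcon
  obtain ⟨S', hS'sub, hS'card⟩ := Finset.exists_subset_card_eq (show s + 1 ≤ S.card by omega)
  have hS' : ∀ t ∈ S', FF c t = v := fun t ht => hS t (hS'sub ht)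
  set W : ℤ[X] := ∏ t ∈ S', (X - C (t : ℤ)) with hW
  have hWm : W.Monic := monic_prod_of_monic _ _ (fun t _ => monic_X_sub_C _)
  have hWd : W.natDegree = s + 1 := by
    rw [hW, natDegree_prod_of_monic _ _ (fun t _ => monic_X_sub_C _)]
    have : ∀ t ∈ S', (X - C (t : ℤ)).natDegree = 1 := fun t _ => natDegree_X_sub_C _
    rw [Finset.sum_congr rfl this]
    simp [hS'card]
  have hWdeg : W.degree = ((s + 1 : ℕ) : WithBot ℕ) := by
    rw [degree_eq_natDegree hWm.ne_zero, hWd]
  set h : ℕ → ℤ := fun i => ((DD i) %ₘ W).coeff s with hh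
  have hDm : ∀ i, (DD i).Monic := fun i => monic_descPochhammer ℤ i
  have hDd : ∀ i, (DD i).natDegree = i := fun i => descPochhammer_natDegree ℤ i
  have hlow : ∀ i, i ≤ s → (DD i) %ₘ W = DD i := by
    intro i hi
    rw [modByMonic_eq_self_iff hWm, hWdeg, degree_eq_natDegree (hDm i).ne_zero, hDd]
    exact_mod_cast (by omega : i < s + 1)
  have h_lt : ∀ i, i < s → h i = 0 := by
    intro i hi
    rw [hh]
    simp only
    rw [hlow i hi.le]
    apply coeff_eq_zero_of_natDegree_lt
    rw [hDd]; exact hi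
  have h_s : h s = 1 := by
    rw [hh]
    simp only
    rw [hlow s le_rfl]
    have := (hDm s).coeff_natDegree
    rwa [hDd] at this
  -- the truncated polynomial
  set T : ℕ := S'.sup id with hT
  have hTt : ∀ t ∈ S', t ≤ T := fun t ht => Finset.le_sup (f := id) ht
  have hsT : s ≤ T := by
    by_contra hlt
    push Not at hlt
    have hsub : S' ⊆ range (T + 1) := by
      intro t ht
      rw [mem_range]
      have := hTt t ht
      omega
    have := Finset.card_le_card hsub
    rw [hS'card, card_range] at this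
    omega
  let φ : ℤ →+* ℚ := Int.castRingHom ℚ
  set WQ : ℚ[X] := W.map φ with hWQ
  have hWQm : WQ.Monic := hWm.map φ
  set P : ℚ[X] := ∑ i ∈ range (T + 1), C (co c i) * (DD i).map φ with hP
  have hPeval : ∀ t ∈ S', P.eval (t : ℚ) = (v : ℚ) := by
    intro t ht
    have h1 := hS' t ht
    rw [FF_eq c t T (hTt t ht)] at h1
    rw [hP, eval_finset_sum, ← h1]
    push_cast
    apply Finset.sum_congr rfl
    intro i _
    rw [eval_mul, eval_C]
    have e : ((DD i).map φ).eval (t : ℚ) = ((i.factorial : ℤ) * (t.choose i : ℤ) : ℤ) := by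
      rw [← DD_eval]
      have := Polynomial.eval_intCast_map φ (DD i) (t : ℤ)
      simpa using this
    rw [e]
    unfold co
    have hfac : (i.factorial : ℚ) ≠ 0 := by exact_mod_cast i.factorial_ne_zero
    push_cast
    field_simp
  have hdvd : WQ ∣ P - C (v : ℚ) := by
    have hWQ' : WQ = ∏ t ∈ S', (X - C (t : ℚ)) := by
      rw [hWQ, hW, Polynomial.map_prod]
      apply Finset.prod_congr rfl
      intro t _
      simp [φ]
    rw [hWQ']
    apply Finset.prod_dvd_of_coprime
    · intro a ha b hb hab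
      apply isCoprime_X_sub_C_of_isUnit_sub
      apply IsUnit.mk0
      rw [sub_ne_zero]
      exact_mod_cast hab
    · intro t ht
      rw [dvd_iff_isRoot, IsRoot.def, eval_sub, hPeval t ht]
      simp
  have hmod : (P - C (v : ℚ)) %ₘ WQ = 0 := (modByMonic_eq_zero_iff_dvd hWQm).mpr hdvd
  have hcoeff := congrArg (fun p : ℚ[X] => p.coeff s) hmod
  simp only [coeff_zero] at hcoeff
  rw [sub_modByMonic, coeff_sub] at hcoeff
  have hconst : (C (v : ℚ) %ₘ WQ).coeff s = 0 := by
    rw [(modByMonic_eq_self_iff hWQm).mpr]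
    · exact coeff_C_ne_zero (by omega)
    · rw [degree_eq_natDegree hWQm.ne_zero, hWQ, hWm.natDegree_map, hWd]
      exact lt_of_le_of_lt degree_C_le (by exact_mod_cast Nat.succ_pos s)
  rw [hconst, sub_zero] at hcoeff
  have hsum : (P %ₘ WQ).coeff s = ∑ i ∈ range (T + 1), co c i * (h i : ℚ) := by
    have e1 : P %ₘ WQ = ∑ i ∈ range (T + 1), co c i • ((DD i).map φ %ₘ WQ) := by
      have := map_sum (modByMonicHom WQ) (fun i => C (co c i) * (DD i).map φ) (range (T + 1))
      have e2 : (modByMonicHom WQ) P = P %ₘ WQ := rfl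
      rw [← e2, hP, this]
      apply Finset.sum_congr rfl
      intro i _
      rw [← smul_eq_C_mul, map_smul]
      rfl
    rw [e1, finset_sum_coeff]
    apply Finset.sum_congr rfl
    intro i _
    rw [coeff_smul, smul_eq_mul, ← map_modByMonic φ hWm, coeff_map]
    rfl
  rw [hsum] at hcoeff
  -- isolate the term `s`
  have hsplit : ∑ i ∈ range (T + 1), co c i * (h i : ℚ) =
      co c s + ∑ i ∈ (range (T + 1)).filter (fun i => s < i), co c i * (h i : ℚ) := by
    rw [← Finset.sum_filter_add_sum_filter_not (range (T + 1)) (fun i => s < i), add_comm]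
    congr 1
    rw [Finset.sum_eq_single_of_mem s]
    · rw [h_s]; simp
    · rw [mem_filter, mem_range]; omega
    · intro i hi his
      rw [mem_filter] at hi
      rw [h_lt i (by omega)]
      simp
  rw [hsplit] at hcoeff
  have hpos : 0 < padicNorm 3 (co c s) :=
    lt_of_le_of_ne (padicNorm.nonneg _) (padicNorm.nonzero hs0).symm
  have hlt : padicNorm 3 (∑ i ∈ (range (T + 1)).filter (fun i => s < i), co c i * (h i : ℚ)) <
      padicNorm 3 (co c s) := by
    apply padicNorm.sum_lt' _ hpos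
    intro i hi
    rw [mem_filter] at hi
    rw [padicNorm.mul]
    have e1 : padicNorm 3 ((h i : ℤ) : ℚ) ≤ 1 := padicNorm.of_int _
    calc padicNorm 3 (co c i) * padicNorm 3 ((h i : ℤ) : ℚ) ≤ padicNorm 3 (co c i) * 1 :=
          mul_le_mul_of_nonneg_left e1 (padicNorm.nonneg _)
      _ = padicNorm 3 (co c i) := mul_one _
      _ < _ := hs i hi.2
  have heq : co c s = -∑ i ∈ (range (T + 1)).filter (fun i => s < i), co c i * (h i : ℚ) := by
    linarith
  have : padicNorm 3 (co c s) = padicNorm 3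
      (∑ i ∈ (range (T + 1)).filter (fun i => s < i), co c i * (h i : ℚ)) := by
    conv_lhs => rw [heq]
    rw [padicNorm.neg]
  linarith

end Pool.Agent.Erg4d
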