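import Pool.Agent.Erg4d.Torus

set_option autoImplicit false

open MeasureTheory Filter Topology Finset UnitAddTorus
open scoped ENNReal ComplexConjugate

namespace Pool.Agent.Erg4d

open Pool.Lib.Erg

/-- Normalised Haar measure on the circle. -/
noncomputable local instance : MeasureSpace UnitAddCircle := ⟨AddCircle.haarAddCircle⟩

local instance : Measure.IsAddHaarMeasure (volume : Measure UnitAddCircle) :=
  inferInstanceAs (Measure.IsAddHaarMeasure AddCircle.haarAddCircle)

local instance : IsProbabilityMeasure (volume : Measure UnitAddCircle) :=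
  inferInstanceAs (IsProbabilityMeasure AddCircle.haarAddCircle)

variable {k m : ℕ}

lemma mFourier_norm_apply (n : Fin k → ℤ) (x : UnitAddTorus (Fin k)) : ‖mFourier n x‖ = 1 := by
  show ‖∏ i, fourier (n i) (x i)‖ = 1
  rw [norm_prod]
  simp [fourier_apply]

/-- Second moment of an exponential sum. -/
lemma second_moment (u : ℕ → Fin k → ℤ) (N : ℕ) :
    ∫ x : UnitAddTorus (Fin k), ‖∑ n ∈ range N, mFourier (u n) x‖ ^ 2 =
      ∑ s ∈ range N, (((range N).filter fun t => u t = u s).card : ℝ) := by
  set g : C(UnitAddTorus (Fin k), ℂ) := ∑ n ∈ range N, mFourier (u n) with hg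
  have hgx : ∀ x, g x = ∑ n ∈ range N, mFourier (u n) x := by
    intro x
    rw [hg, ContinuousMap.sum_apply]
  have h1 : ((∫ x : UnitAddTorus (Fin k), ‖g x‖ ^ 2 : ℝ) : ℂ) = ∫ x, g x * conj (g x) := by
    rw [← integral_complex_ofReal]
    apply integral_congr_ae
    apply Eventually.of_forall
    intro x
    simp only
    rw [Complex.mul_conj, Complex.normSq_eq_norm_sq]
  have h2 : (∫ x, g x * conj (g x) : ℂ) =
      inner ℂ (ContinuousMap.toLp (E := ℂ) 2 (volume : Measure (UnitAddTorus (Fin k))) ℂ g)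
        (ContinuousMap.toLp (E := ℂ) 2 (volume : Measure (UnitAddTorus (Fin k))) ℂ g) :=
    (ContinuousMap.inner_toLp _ g g).symm
  have h3 : ContinuousMap.toLp (E := ℂ) 2 (volume : Measure (UnitAddTorus (Fin k))) ℂ g =
      ∑ n ∈ range N, mFourierLp 2 (u n) := by
    rw [hg, map_sum]
  have h4 : (∫ x, g x * conj (g x) : ℂ) =
      ((∑ s ∈ range N, (((range N).filter fun t => u t = u s).card : ℝ) : ℝ) : ℂ) := by
    rw [h2, h3, sum_inner]
    push_cast
    apply Finset.sum_congr rfl
    intro s _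
    rw [inner_sum]
    have ho := orthonormal_iff_ite.mp (orthonormal_mFourier (d := Fin k))
    simp_rw [ho]
    rw [← Finset.sum_filter, Finset.sum_const, nsmul_eq_mul, mul_one]
    congr 2
    apply Finset.filter_congr
    intro t _
    exact eq_comm
  rw [h4] at h1
  have h5 := Complex.ofReal_injective h1
  rw [← h5]
  apply integral_congr_ae
  apply Eventually.of_forall
  intro x
  simp only
  rw [hgx]

/-- Averages of characters with bounded multiplicities tend to zero almost everywhere. -/
theorem avg_characters_zero (u : ℕ → Fin k → ℤ) (K : ℕ)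
    (hK : ∀ (z : Fin k → ℤ) (S : Finset ℕ), (∀ t ∈ S, u t = z) → S.card ≤ K) :
    ∀ᵐ x : UnitAddTorus (Fin k), Tendsto (avg fun n => mFourier (u n) x) atTop (𝓝 0) := by
  apply avg_zero_of_L2 (fun n x => mFourier (u n) x) 1
  · intro n
    exact (mFourier (u n)).continuous.aestronglyMeasurable
  · exact Eventually.of_forall fun x n => (mFourier_norm_apply _ _).le
  · intro N
    rw [second_moment]
    calc ∑ s ∈ range N, (((range N).filter fun t => u t = u s).card : ℝ) ≤
        ∑ _s ∈ range N, (K : ℝ) := by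
          apply Finset.sum_le_sum
          intro s _
          have := hK (u s) ((range N).filter fun t => u t = u s) (fun t ht => (mem_filter.mp ht).2)
          exact_mod_cast this
      _ = K * N := by rw [Finset.sum_const, card_range, nsmul_eq_mul, mul_comm]

lemma prod_mFourier (s : Finset (Fin m)) (a : Fin m → Fin k → ℤ) (x : UnitAddTorus (Fin k)) :
    ∏ j ∈ s, mFourier (a j) x = mFourier (∑ j ∈ s, a j) x := by
  classical
  induction s using Finset.induction_on with
  | empty => simp [mFourier_zero]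
  | insert i s hi ih => rw [Finset.prod_insert hi, Finset.sum_insert hi, ih, mFourier_add]

/-- Convergence for characters. -/
theorem conv_characters (B : Fin m → (Matrix (Fin k) (Fin k) ℤ)ˣ) (ξ : Fin m → Fin k → ℤ) :
    ∀ᵐ x : UnitAddTorus (Fin k), ∃ L, Tendsto (avg fun n => ∏ j, mFourier (ξ j)
      ((tor (B j : Matrix (Fin k) (Fin k) ℤ))^[n] x)) atTop (𝓝 L) := by
  -- transposed matrices
  set Bt : Fin m → (Matrix (Fin k) (Fin k) ℤ)ˣ := fun j =>
    ⟨(B j : Matrix (Fin k) (Fin k) ℤ).transpose,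
      ((B j)⁻¹ : (Matrix (Fin k) (Fin k) ℤ)ˣ).val.transpose,
      by rw [← Matrix.transpose_mul, Units.inv_mul, Matrix.transpose_one],
      by rw [← Matrix.transpose_mul, Units.mul_inv, Matrix.transpose_one]⟩ with hBt
  have hterm : ∀ (n : ℕ) (x : UnitAddTorus (Fin k)), ∏ j, mFourier (ξ j)
      ((tor (B j : Matrix (Fin k) (Fin k) ℤ))^[n] x) = mFourier (vv Bt ξ n) x := by
    intro n x
    simp_rw [tor_pow, mFourier_tor]
    rw [prod_mFourier]
    unfold vv
    congr 2
    apply Finset.sum_congr rfl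
    intro j _
    rw [Matrix.transpose_pow]
  simp_rw [hterm]
  obtain ⟨q, hq, hstr⟩ := structure_vv Bt ξ
  have hr : ∀ r : ℕ, ∀ᵐ x : UnitAddTorus (Fin k), ∃ L,
      Tendsto (avg fun t => mFourier (vv Bt ξ (q * t + r)) x) atTop (𝓝 L) := by
    intro r
    rcases hstr r with h | ⟨K, hK⟩
    · apply Eventually.of_forall
      intro x
      refine ⟨mFourier (vv Bt ξ r) x, ?_⟩
      simp_rw [h]
      apply Tendsto.congr' _ tendsto_const_nhds
      filter_upwards [eventually_gt_atTop 0] with N hN
      unfold avg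
      have : (N : ℂ) ≠ 0 := by exact_mod_cast hN.ne'
      rw [Finset.sum_const, card_range, nsmul_eq_mul]
      field_simp
    · filter_upwards [avg_characters_zero (fun t => vv Bt ξ (q * t + r)) K hK] with x hx
      exact ⟨0, hx⟩
  rw [← ae_all_iff] at hr
  filter_upwards [hr] with x hx
  exact avg_residue _ 1 (fun n => (mFourier_norm_apply _ _).le) q hq (fun r _ => hx r)

/-- Density of trigonometric polynomials in `L¹`. -/
lemma dense_characters (f : UnitAddTorus (Fin k) → ℂ) (hf : MemLp f ∞) (ε : ℝ) (hε : 0 < ε) :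
    ∃ (ι : Type) (s : Finset ι) (c : ι → ℂ) (φ : ι → UnitAddTorus (Fin k) → ℂ),
      (∀ i ∈ s, φ i ∈ {g | ∃ n : Fin k → ℤ, g = fun x => mFourier n x}) ∧
      ∫ x, ‖f x - ∑ i ∈ s, c i * φ i x‖ ≤ ε := by
  have hf1 : MemLp f 1 := hf.mono_exponent (by simp)
  have hmem : hf1.toLp f ∈ (Submodule.span ℂ (Set.range (@mFourierLp (Fin k) _ 1 _))).topologicalClosure := by
    rw [span_mFourierLp_closure_eq_top (by simp)]
    exact Submodule.mem_top
  rw [← SetLike.mem_coe, Submodule.topologicalClosure_coe, Metric.mem_closure_iff] at hmem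
  obtain ⟨g, hg, hgd⟩ := hmem ε hε
  rw [SetLike.mem_coe, Finsupp.mem_span_range_iff_exists_finsupp] at hg
  obtain ⟨c, hc⟩ := hg
  refine ⟨Fin k → ℤ, c.support, c, fun n x => mFourier n x, fun i _ => ⟨i, rfl⟩, ?_⟩
  have h1 : g =ᵐ[volume] fun x => ∑ i ∈ c.support, c i * mFourier i x := by
    rw [← hc, Finsupp.sum]
    have h2 : ∀ i ∈ c.support, (c i • mFourierLp 1 i : Lp ℂ 1 (volume : Measure (UnitAddTorus (Fin k))))
        =ᵐ[volume] fun x => c i * mFourier i x := by
      intro i _
      filter_upwards [Lp.coeFn_smul (c i) (mFourierLp (d := Fin k) 1 i),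
        coeFn_mFourierLp (d := Fin k) 1 i] with x h3 h4
      rw [h3, Pi.smul_apply, h4, smul_eq_mul]
    have h3 : ∀ᵐ x : UnitAddTorus (Fin k), ∀ i ∈ c.support,
        (c i • mFourierLp 1 i : Lp ℂ 1 (volume : Measure (UnitAddTorus (Fin k)))) x =
          c i * mFourier i x := by
      rw [Filter.eventually_all_finset]
      exact h2
    filter_upwards [h3, Lp.coeFn_finsetSum c.support (fun i => c i • mFourierLp 1 i)] with x h4 h5
    rw [h5]
    simp only [Finset.sum_apply]
    exact Finset.sum_congr rfl h4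
  rw [dist_eq_norm, L1.norm_eq_integral_norm] at hgd
  have h2 : ∫ x, ‖f x - ∑ i ∈ c.support, c i * mFourier i x‖ =
      ∫ x, ‖(hf1.toLp f - g) x‖ := by
    apply integral_congr_ae
    filter_upwards [h1, hf1.coeFn_toLp, Lp.coeFn_sub (hf1.toLp f) g] with x h3 h4 h5
    rw [h5, Pi.sub_apply, h4, h3]
  rw [h2]
  exact hgd.le

/-- One sided convergence for bounded functions. -/
theorem one_sided (B : Fin m → (Matrix (Fin k) (Fin k) ℤ)ˣ) (f : Fin m → UnitAddTorus (Fin k) → ℂ)
    (hf : ∀ j, MemLp (f j) ∞) :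
    ∀ᵐ x : UnitAddTorus (Fin k), ∃ L, Tendsto (avg fun n => ∏ j, f j
      ((tor (B j : Matrix (Fin k) (Fin k) ℤ))^[n] x)) atTop (𝓝 L) := by
  apply multi_closure (fun j => tor (B j : Matrix (Fin k) (Fin k) ℤ))
    (fun j => tor_measurePreserving (B j))
    {g | ∃ n : Fin k → ℤ, g = fun x => mFourier n x} _ dense_characters _ f hf
  · rintro φ ⟨n, rfl⟩
    exact MemLp.of_bound (mFourier n).continuous.aestronglyMeasurable 1
      (Eventually.of_forall fun x => (mFourier_norm_apply _ _).le)
  · intro φ hφ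
    choose ξ hξ using hφ
    have : ∀ j, φ j = fun x => mFourier (ξ j) x := hξ
    simp_rw [this]
    exact conv_characters B ξ

end Pool.Agent.Erg4d
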