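import Pool.Agent.Erg4d.MatPow
import Pool.Agent.Lib.ErgodicAverages

set_option autoImplicit false

open MeasureTheory Filter Topology Finset UnitAddTorus
open scoped ENNReal

namespace Pool.Agent.Erg4d

/-- Normalised Haar measure on the circle. -/
noncomputable local instance : MeasureSpace UnitAddCircle := ⟨AddCircle.haarAddCircle⟩

local instance : Measure.IsAddHaarMeasure (volume : Measure UnitAddCircle) :=
  inferInstanceAs (Measure.IsAddHaarMeasure AddCircle.haarAddCircle)

local instance : IsProbabilityMeasure (volume : Measure UnitAddCircle) :=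
  inferInstanceAs (IsProbabilityMeasure AddCircle.haarAddCircle)

variable {k m : ℕ}

/-- The toral endomorphism given by an integer matrix. -/
def tor (B : Matrix (Fin k) (Fin k) ℤ) (x : UnitAddTorus (Fin k)) : UnitAddTorus (Fin k) :=
  fun i => ∑ l, B i l • x l

lemma tor_one (x : UnitAddTorus (Fin k)) : tor 1 x = x := by
  funext i
  unfold tor
  rw [Finset.sum_eq_single i]
  · simp
  · intro l _ hl
    rw [Matrix.one_apply_ne hl.symm, zero_smul]
  · intro h; exact absurd (Finset.mem_univ i) h

lemma tor_mul (A B : Matrix (Fin k) (Fin k) ℤ) (x : UnitAddTorus (Fin k)) :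
    tor (A * B) x = tor A (tor B x) := by
  funext i
  unfold tor
  simp_rw [Matrix.mul_apply, Finset.sum_smul, Finset.smul_sum, smul_smul]
  rw [Finset.sum_comm]

lemma tor_pow (B : Matrix (Fin k) (Fin k) ℤ) (n : ℕ) (x : UnitAddTorus (Fin k)) :
    (tor B)^[n] x = tor (B ^ n) x := by
  induction n generalizing x with
  | zero => rw [pow_zero, tor_one]; rfl
  | succ n ih => rw [Function.iterate_succ_apply, ih, ← tor_mul, ← pow_succ]

lemma tor_continuous (B : Matrix (Fin k) (Fin k) ℤ) : Continuous (tor B) := by
  unfold tor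
  fun_prop

lemma tor_add (B : Matrix (Fin k) (Fin k) ℤ) (x y : UnitAddTorus (Fin k)) :
    tor B (x + y) = tor B x + tor B y := by
  funext i
  unfold tor
  simp [Finset.sum_add_distrib, smul_add]

lemma tor_zero (B : Matrix (Fin k) (Fin k) ℤ) : tor B 0 = 0 := by
  funext i
  unfold tor
  simp

lemma tor_measurePreserving (B : (Matrix (Fin k) (Fin k) ℤ)ˣ) :
    MeasurePreserving (tor (B : Matrix (Fin k) (Fin k) ℤ))
      (volume : Measure (UnitAddTorus (Fin k))) volume := by
  let f : UnitAddTorus (Fin k) →+ UnitAddTorus (Fin k) :=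
    { toFun := tor (B : Matrix (Fin k) (Fin k) ℤ)
      map_zero' := tor_zero _
      map_add' := tor_add _ }
  have hs : Function.Surjective f := by
    intro y
    refine ⟨tor ((B⁻¹ : (Matrix (Fin k) (Fin k) ℤ)ˣ) : Matrix (Fin k) (Fin k) ℤ) y, ?_⟩
    show tor _ (tor _ y) = y
    rw [← tor_mul, Units.mul_inv, tor_one]
  exact AddMonoidHom.measurePreserving (f := f) (tor_continuous _) hs rfl

lemma mFourier_tor (B : Matrix (Fin k) (Fin k) ℤ) (ξ : Fin k → ℤ) (x : UnitAddTorus (Fin k)) :
    mFourier ξ (tor B x) = mFourier (B.transpose.mulVec ξ) x := by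
  have h1 : ∀ (n : ℤ) (y : Fin k → UnitAddCircle), fourier n (∑ l, y l) = ∏ l, fourier n (y l) := by
    have h0 : ∀ (s : Finset (Fin k)) (n : ℤ) (y : Fin k → UnitAddCircle),
        fourier n (∑ l ∈ s, y l) = ∏ l ∈ s, fourier n (y l) := by
      intro s n y
      classical
      induction s using Finset.induction_on with
      | empty => simp [fourier_apply, AddCircle.toCircle_zero]
      | insert i s hi ih =>
        rw [Finset.sum_insert hi, Finset.prod_insert hi, ← ih]
        simp only [fourier_apply]
        rw [smul_add, AddCircle.toCircle_add]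
        push_cast
        rfl
    exact fun n y => h0 univ n y
  show ∏ i, fourier (ξ i) (∑ l, B i l • x l) =
    ∏ l, fourier (∑ i, B.transpose l i * ξ i) (x l)
  simp_rw [h1]
  rw [Finset.prod_comm]
  apply Finset.prod_congr rfl
  intro l _
  have h2 : ∀ (s : Finset (Fin k)) (a : Fin k → ℤ) (y : UnitAddCircle),
      fourier (∑ i ∈ s, a i) y = ∏ i ∈ s, fourier (a i) y := by
    intro s a y
    classical
    induction s using Finset.induction_on with
    | empty => simp
    | insert i s hi ih => rw [Finset.sum_insert hi, Finset.prod_insert hi, fourier_add, ih]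
  rw [h2]
  apply Finset.prod_congr rfl
  intro i _
  simp only [fourier_apply, Matrix.transpose_apply]
  rw [smul_smul, mul_comm]

end Pool.Agent.Erg4d
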